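import Pool.Agent.H577R3.RM.Stmts

set_option autoImplicit false

namespace Pool.Agent.H87R3.RM

open Pool.Agent.H577R3.RM

variable {K : Type} [Field K] {n : ℕ}

/-- a polynomial in the variable `c` -/
noncomputable def up {C : Finset (Fin n)} (c : {c // c ∈ C}) (g : Polynomial ℤ) :
    MvPolynomial {c // c ∈ C} ℤ := Polynomial.aeval (MvPolynomial.X c) g

theorem evC_up {C : Finset (Fin n)} (θ : Fin n → Kˣ) (c : {c // c ∈ C}) (g : Polynomial ℤ) :
    evC C θ (up c g) = Polynomial.aeval ((θ c.1 : Kˣ) : K) g := by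
  unfold up evC
  rw [Polynomial.aeval_def, Polynomial.hom_eval₂, Polynomial.aeval_def]
  congr 1
  · exact RingHom.ext_int _ _
  · exact MvPolynomial.eval₂Hom_X' _ _ _

/-- the map back -/
noncomputable def down {C : Finset (Fin n)} (F : MvPolynomial {c // c ∈ C} ℤ) : Polynomial ℤ :=
  MvPolynomial.aeval (fun _ => (Polynomial.X : Polynomial ℤ)) F

theorem down_up {C : Finset (Fin n)} (c : {c // c ∈ C}) (g : Polynomial ℤ) : down (up c g) = g := by
  unfold down up
  rw [← Polynomial.aeval_algHom_apply, MvPolynomial.aeval_X, Polynomial.aeval_X_left_apply]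

theorem up_deg {C : Finset (Fin n)} (c i : {c // c ∈ C}) (h : i ≠ c) (g : Polynomial ℤ) :
    MvPolynomial.degreeOf i (up c g) = 0 := by
  have h1 : up c g ∈ MvPolynomial.supported ℤ ({c} : Set {c // c ∈ C}) := by
    rw [MvPolynomial.supported_eq_adjoin_X, Set.image_singleton]
    exact Polynomial.aeval_mem_adjoin_singleton ℤ _
  rw [MvPolynomial.mem_supported] at h1
  by_contra hne
  have h2 := MvPolynomial.mem_vars_iff_degreeOf_ne_zero.2 hne
  exact h (h1 h2)

theorem dvd_deg {σ : Type} {f g : MvPolynomial σ ℤ} (h : f ∣ g) (hg : g ≠ 0) (i : σ)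
    (hi : MvPolynomial.degreeOf i g = 0) : MvPolynomial.degreeOf i f = 0 := by
  obtain ⟨k, rfl⟩ := h
  rw [MvPolynomial.degreeOf_mul_eq (left_ne_zero_of_mul hg) (right_ne_zero_of_mul hg)] at hi
  omega

theorem taskTR : TaskTR := by
  intro n C K _ θ
  constructor
  · rintro hC ⟨f, hf, hker⟩
    by_contra hT
    unfold Trs at hT
    push Not at hT
    obtain ⟨c, hc, c', hc', hcc⟩ := Finset.one_lt_card.1 (by omega : 1 < C.card)
    obtain ⟨g, hg, k, hk⟩ := hT c
    obtain ⟨g', hg', k', hk'⟩ := hT c'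
    have d : f ∣ up ⟨c, hc⟩ g := by
      rw [← Ideal.mem_span_singleton, ← hker, RingHom.mem_ker, evC_up]
      exact hg
    have d' : f ∣ up ⟨c', hc'⟩ g' := by
      rw [← Ideal.mem_span_singleton, ← hker, RingHom.mem_ker, evC_up]
      exact hg'
    have n1 : up (⟨c, hc⟩ : {c // c ∈ C}) g ≠ 0 := by
      intro h
      have h2 := down_up (⟨c, hc⟩ : {c // c ∈ C}) g
      rw [h] at h2
      apply hk
      rw [← h2]
      simp [down]
    have n2 : up (⟨c', hc'⟩ : {c // c ∈ C}) g' ≠ 0 := by
      intro h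
      have h2 := down_up (⟨c', hc'⟩ : {c // c ∈ C}) g'
      rw [h] at h2
      apply hk'
      rw [← h2]
      simp [down]
    have hv : f.vars = ∅ := by
      rw [Finset.eq_empty_iff_forall_notMem]
      intro i hi
      rw [MvPolynomial.mem_vars_iff_degreeOf_ne_zero] at hi
      apply hi
      by_cases h : i = ⟨c, hc⟩
      · apply dvd_deg d' n2
        apply up_deg
        rw [h]
        intro e
        exact hcc (congrArg Subtype.val e)
      · apply dvd_deg d n1
        exact up_deg _ _ h _
    rw [MvPolynomial.vars_eq_empty_iff_eq_C] at hv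
    set p := MvPolynomial.coeff 0 f with hp
    have hpK : ((p : ℤ) : K) = 0 := by
      have h3 : f ∈ RingHom.ker (evC C θ) := by
        rw [hker]
        exact Ideal.mem_span_singleton_self f
      rw [RingHom.mem_ker, hv] at h3
      unfold evC at h3
      simpa using h3
    have h4 : Polynomial.C p ∣ g := by
      obtain ⟨F, hF⟩ := d
      have h5 : down (up (⟨c, hc⟩ : {c // c ∈ C}) g) = down f * down F := by
        rw [hF]
        unfold down
        rw [map_mul]
      rw [down_up] at h5
      refine ⟨down F, ?_⟩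
      rw [h5]
      congr 1
      rw [hv]
      unfold down
      simp
    rw [Polynomial.C_dvd_iff_dvd_coeff] at h4
    obtain ⟨t, ht⟩ := h4 k
    apply hk
    rw [ht]
    push_cast
    rw [hpK, zero_mul]
  · intro hC hG
    obtain ⟨c, hc⟩ := Finset.card_pos.1 (by omega : 0 < C.card)
    refine ⟨c, fun g hg k => ?_⟩
    have h1 : up (⟨c, hc⟩ : {c // c ∈ C}) g ∈ RingHom.ker (evC C θ) := by
      rw [RingHom.mem_ker, evC_up]
      exact hg
    unfold Gen0 at hG
    rw [hG, Ideal.mem_bot] at h1
    have h2 := down_up (⟨c, hc⟩ : {c // c ∈ C}) g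
    rw [h1] at h2
    rw [← h2]
    simp [down]

end Pool.Agent.H87R3.RM
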